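import Pool.Agent.Helper38.XF.Spec

/-!
# XF, part SEP: reduction to one variable
-/

set_option autoImplicit false

namespace Pool.Agent.Helper79.XF.SEP

open Pool.Agent.Helper38.XF Set

/-- an independent set has an element which is not needed for a given non-algebraic element -/
theorem exch {k L : Type} [Field k] [Field L] [Algebra k L] {S : Set L}
    (hS : AlgebraicIndepOn k id S) {y : L} (hy : ¬ IsAlgebraic (Algebra.adjoin k (∅ : Set L)) y)
    (hyS : IsAlgebraic (Algebra.adjoin k S) y) :
    ∃ i ∈ S, ¬ IsAlgebraic (Algebra.adjoin k (S \ {i})) y ∧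
      ¬ IsAlgebraic (Algebra.adjoin k (S \ {i})) i := by
  set M := AlgebraicIndependent.matroid k L with hM
  have hI : M.Indep S := hS
  have hcl : ∀ (T : Set L) (x : L), x ∈ M.closure T ↔ IsAlgebraic (Algebra.adjoin k T) x := by
    intro T x
    rw [hM, AlgebraicIndependent.matroid_closure_eq]
    rfl
  have hne : S.Nonempty := by
    rw [nonempty_iff_ne_empty]
    rintro rfl
    exact hy hyS
  have hne' : Nonempty S := hne.to_subtype
  have h1 : ∃ i : S, y ∉ M.closure (S \ {(i : L)}) := by
    by_contra hc
    push Not at hc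
    have h2 := hI.closure_iInter_eq_biInter_closure_of_forall_subset
      (Js := fun i : S => S \ {(i : L)}) (fun i => sdiff_subset)
    have h3 : (⋂ i : S, S \ {(i : L)}) = ∅ := by
      ext x
      simp only [mem_iInter, mem_sdiff, mem_singleton_iff, mem_empty_iff_false, iff_false]
      intro h
      obtain ⟨i, hi⟩ := hne
      have hx : x ∈ S := (h ⟨i, hi⟩).1
      exact (h ⟨x, hx⟩).2 rfl
    rw [h3] at h2
    have h4 : y ∈ M.closure ∅ := by
      rw [h2]
      exact mem_iInter.2 hc
    rw [hcl] at h4
    exact hy h4
  obtain ⟨i, hi⟩ := h1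
  refine ⟨i, i.2, ?_, ?_⟩
  · rwa [hcl] at hi
  · rw [← hcl]
    exact hI.notMem_closure_sdiff_of_mem i.2

theorem main (hPOW : St_POW) : St_SEP := by
  intro p _ L _ _ t k hPB hLam hk κ _ w b hb
  have hpp : p.Prime := Fact.out
  set E : IntermediateField k L := IntermediateField.adjoin k (range w) with hE
  have hEf : Algebra.EssFiniteType k E := by
    rw [IntermediateField.essFiniteType_iff]
    exact IntermediateField.fg_adjoin_of_finite (finite_range w)
  have hEw : ∀ j, w j ∈ E := fun j => IntermediateField.subset_adjoin k _ (mem_range_self j)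
  have hchar : CharP k p := inferInstance
  have hexp : ExpChar k p := ExpChar.prime hpp
  obtain ⟨s, hs, hsep⟩ :=
    exists_isTranscendenceBasis_and_isSeparable_of_linearIndepOn_pow_of_essFiniteType
      (k := k) (K := E) p hpp (fun s h => hPOW p L t k hPB hLam E s h)
  -- the image in `L`
  set S : Set L := (fun x : E => (x : L)) '' (s : Set E) with hSd
  have hSind : AlgebraicIndepOn k id S := by
    have h1 : AlgebraicIndependent k (E.val ∘ (Subtype.val : s → E)) :=
      hs.1.map' (f := E.val) Subtype.val_injective
    have h2 := h1.coe_range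
    have h3 : range (E.val ∘ (Subtype.val : s → E)) = S := by
      ext x
      constructor
      · rintro ⟨z, rfl⟩
        exact ⟨z.1, z.2, rfl⟩
      · rintro ⟨z, hz, rfl⟩
        exact ⟨⟨z, hz⟩, rfl⟩
    rw [h3] at h2
    exact h2
  have hyS : IsAlgebraic (Algebra.adjoin k S) (w b) := by
    rw [← IntermediateField.isAlgebraic_adjoin_iff]
    set K0 : IntermediateField k L := IntermediateField.adjoin k S with hK0
    have hsub : ∀ x : IntermediateField.adjoin k (s : Set E), ((x : E) : L) ∈ K0 := by
      intro x
      have h1 : (IntermediateField.adjoin k (s : Set E)).toSubfield ≤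
          K0.toSubfield.comap (algebraMap E L) := by
        show Subfield.closure (range (algebraMap k E) ∪ (s : Set E)) ≤ _
        rw [Subfield.closure_le]
        rintro z (⟨c, rfl⟩ | hz)
        · show algebraMap E L (algebraMap k E c) ∈ K0
          exact K0.algebraMap_mem c
        · show (z : L) ∈ K0
          exact IntermediateField.subset_adjoin _ _ ⟨z, hz, rfl⟩
      exact h1 x.2
    let φ : IntermediateField.adjoin k (s : Set E) →+* K0 :=
      ((algebraMap E L).comp (algebraMap (IntermediateField.adjoin k (s : Set E)) E)).codRestrict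
        K0.toSubfield (fun x => hsub x)
    have h5 : IsSeparable (IntermediateField.adjoin k (s : Set E)) (⟨w b, hEw b⟩ : E) :=
      Algebra.IsSeparable.isSeparable _ _
    refine ⟨(minpoly (IntermediateField.adjoin k (s : Set E)) (⟨w b, hEw b⟩ : E)).map φ, ?_, ?_⟩
    · rw [Polynomial.map_ne_zero_iff φ.injective]
      exact minpoly.ne_zero h5.isIntegral
    · rw [Polynomial.aeval_def, Polynomial.eval₂_map]
      have h8 : (algebraMap K0 L).comp φ =
        (algebraMap E L).comp (algebraMap (IntermediateField.adjoin k (s : Set E)) E) := rfl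
      rw [h8]
      show Polynomial.eval₂ _ (algebraMap E L ⟨w b, hEw b⟩) _ = 0
      rw [← Polynomial.hom_eval₂]
      have h9 : Polynomial.eval₂ (algebraMap (IntermediateField.adjoin k (s : Set E)) E)
        (⟨w b, hEw b⟩ : E) (minpoly (IntermediateField.adjoin k (s : Set E))
          (⟨w b, hEw b⟩ : E)) = 0 := minpoly.aeval _ _
      rw [h9, map_zero]
  have hy0 : ¬ IsAlgebraic (Algebra.adjoin k (∅ : Set L)) (w b) := by
    rintro ⟨P, hP0, hP⟩
    apply hb
    apply hk
    have hin : ∀ x : Algebra.adjoin k (∅ : Set L), algebraMap (Algebra.adjoin k (∅ : Set L)) L x ∈ k := by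
      rintro ⟨x, hx⟩
      rw [Algebra.adjoin_empty, Algebra.mem_bot] at hx
      obtain ⟨c, rfl⟩ := hx
      exact c.2
    let ψ : Algebra.adjoin k (∅ : Set L) →+* k :=
      (algebraMap (Algebra.adjoin k (∅ : Set L)) L).codRestrict k hin
    have hψ : Function.Injective ψ := by
      intro x y hxy
      have h1 : algebraMap (Algebra.adjoin k (∅ : Set L)) L x =
        algebraMap (Algebra.adjoin k (∅ : Set L)) L y := congrArg (fun z : k => (z : L)) hxy
      exact Subtype.ext h1
    refine ⟨P.map ψ, (Polynomial.map_ne_zero_iff hψ).2 hP0, ?_⟩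
    rw [Polynomial.aeval_def, Polynomial.eval₂_map]
    exact hP
  obtain ⟨i, hiS, hi1, hi2⟩ := exch hSind hy0 hyS
  set K1 : IntermediateField k L := IntermediateField.adjoin k (S \ {i}) with hK1
  set k' : Subfield L := (algebraicClosure K1 L).toSubfield with hk'
  have hmem : ∀ x : L, x ∈ k' ↔ IsAlgebraic K1 x := fun x => mem_algebraicClosure_iff
  have hkk' : k ≤ k' := by
    intro x hx
    rw [hmem]
    have h1 : x = algebraMap K1 L (algebraMap k K1 ⟨x, hx⟩) := rfl
    rw [h1]
    exact isAlgebraic_algebraMap _
  refine ⟨k', i, hkk', ?_, ?_, ?_, ?_⟩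
  · intro x hx
    have h1 : IsAlgebraic (algebraicClosure K1 L) x := hx
    have h2 : x ∈ algebraicClosure (algebraicClosure K1 L) L := mem_algebraicClosure_iff.2 h1
    rw [algebraicClosure.algebraicClosure_eq_bot, IntermediateField.mem_bot] at h2
    obtain ⟨z, hz⟩ := h2
    rw [← hz]
    exact z.2
  · rw [hmem, hK1, IntermediateField.isAlgebraic_adjoin_iff]
    exact hi1
  · rw [hmem, hK1, IntermediateField.isAlgebraic_adjoin_iff]
    exact hi2
  · intro j
    set K2 : IntermediateField k' L := IntermediateField.adjoin k' {i} with hK2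
    -- the ring homomorphism
    have hsub : ∀ x : IntermediateField.adjoin k (s : Set E), ((x : E) : L) ∈ K2 := by
      intro x
      have h1 : (IntermediateField.adjoin k (s : Set E)).toSubfield ≤
          K2.toSubfield.comap (algebraMap E L) := by
        show Subfield.closure (range (algebraMap k E) ∪ (s : Set E)) ≤ _
        rw [Subfield.closure_le]
        rintro z (⟨c, rfl⟩ | hz)
        · show algebraMap E L (algebraMap k E c) ∈ K2
          have h2 : algebraMap E L (algebraMap k E c) = algebraMap k' L ⟨c, hkk' c.2⟩ := rfl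
          rw [h2]
          exact K2.algebraMap_mem _
        · show (z : L) ∈ K2
          by_cases hzi : (z : L) = i
          · rw [hzi]
            exact IntermediateField.subset_adjoin _ _ (mem_singleton i)
          · have h3 : (z : L) ∈ k' := by
              rw [hmem]
              have h4 : (z : L) ∈ K1 := IntermediateField.subset_adjoin _ _
                ⟨⟨z, hz, rfl⟩, hzi⟩
              exact isAlgebraic_algebraMap (⟨z, h4⟩ : K1)
            exact K2.algebraMap_mem ⟨z, h3⟩
      exact h1 x.2
    let φ : IntermediateField.adjoin k (s : Set E) →+* K2 :=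
      ((algebraMap E L).comp (algebraMap (IntermediateField.adjoin k (s : Set E)) E)).codRestrict
        K2.toSubfield (fun x => hsub x)
    have h5 : IsSeparable (IntermediateField.adjoin k (s : Set E)) (⟨w j, hEw j⟩ : E) :=
      Algebra.IsSeparable.isSeparable _ _
    set P := minpoly (IntermediateField.adjoin k (s : Set E)) (⟨w j, hEw j⟩ : E) with hP
    have h6 : (P.map φ).Separable := Polynomial.Separable.map (show P.Separable from h5)
    have h7 : Polynomial.aeval (w j) (P.map φ) = 0 := by
      rw [Polynomial.aeval_def, Polynomial.eval₂_map]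
      have h8 : (algebraMap K2 L).comp φ =
        (algebraMap E L).comp (algebraMap (IntermediateField.adjoin k (s : Set E)) E) := rfl
      rw [h8]
      show Polynomial.eval₂ _ (algebraMap E L ⟨w j, hEw j⟩) P = 0
      rw [← Polynomial.hom_eval₂]
      have h9 : Polynomial.eval₂ (algebraMap (IntermediateField.adjoin k (s : Set E)) E)
        (⟨w j, hEw j⟩ : E) P = 0 := minpoly.aeval _ _
      rw [h9, map_zero]
    exact h6.of_dvd (minpoly.dvd K2 (w j) h7)

end Pool.Agent.Helper79.XF.SEP
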